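import Mathlib
import Pool.Agent.W593.IR.Stm3

set_option autoImplicit false

namespace Pool.Agent.W71.IR

open Finset Pool.Agent.W593.IR

theorem p1 (w0 w1 w2 w3 w4 u0 u1 u2 u3 H0 H1 H2 T : ℝ) (hw0 : 0 ≤ w0) (hw3 : 0 ≤ w3)
    (hw23 : w3 ≤ w2) (hw12 : w2 ≤ w1) (e0 : H0 / 2 ≤ u0) (e1 : 1 - H0 ≤ u1)
    (hH1 : H1 ≤ H0 + u1) (e2 : 2 - H1 ≤ u2) (hH2 : H2 ≤ H1 + u2) (e3 : 3 - H2 ≤ u3)
    (h0 : 0 ≤ H0) (h1 : H0 ≤ 1 / 2) (A : T ≤ w1 + w2 + w3 + w4)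
    (B : T ≤ w0 / 4 + w1 / 2 + w2 + w3 + w4) :
    T ≤ w0 * u0 + w1 * u1 + w2 * u2 + w3 * u3 + w4 := by
  have hw2 : 0 ≤ w2 := hw3.trans hw23
  have k0 := mul_nonneg hw0 (sub_nonneg.2 e0)
  have k3 := mul_nonneg hw3 (sub_nonneg.2 e3)
  have k4 := mul_nonneg hw3 (sub_nonneg.2 hH2)
  have k2 := mul_nonneg (sub_nonneg.2 hw23) (sub_nonneg.2 e2)
  have k5 := mul_nonneg hw2 (sub_nonneg.2 hH1)
  have k1 := mul_nonneg (sub_nonneg.2 hw12) (sub_nonneg.2 e1)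
  have kA := mul_nonneg (sub_nonneg.2 h1) (sub_nonneg.2 A)
  have kB := mul_nonneg h0 (sub_nonneg.2 B)
  nlinarith [k0, k1, k2, k3, k4, k5, kA, kB]

theorem p2 (w0 w1 w2 w3 w4 u0 u1 u2 u3 H0 H1 H2 T : ℝ) (hw0 : 0 ≤ w0) (hw3 : 0 ≤ w3)
    (hw23 : w3 ≤ w2) (hw12 : w2 ≤ w1) (e0 : 4 / 21 + 5 / 42 * H0 ≤ u0)
    (e1 : 4 / 7 ≤ u1 + 1 / 7 * H0)
    (hH1 : H1 ≤ H0 + u1) (e2 : 2 - H1 ≤ u2) (hH2 : H2 ≤ H1 + u2) (e3 : 3 - H2 ≤ u3)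
    (h0 : 1 / 2 ≤ H0) (h1 : H0 ≤ 8 / 9) (A : T ≤ w0 / 4 + w1 / 2 + w2 + w3 + w4)
    (B : T ≤ w0 * (8 / 27) + w1 * (4 / 9) + w2 * (2 / 3) + w3 + w4) :
    T ≤ w0 * u0 + w1 * u1 + w2 * u2 + w3 * u3 + w4 := by
  have hw2 : 0 ≤ w2 := hw3.trans hw23
  have k0 := mul_nonneg hw0 (sub_nonneg.2 e0)
  have k3 := mul_nonneg hw3 (sub_nonneg.2 e3)
  have k4 := mul_nonneg hw3 (sub_nonneg.2 hH2)
  have k2 := mul_nonneg (sub_nonneg.2 hw23) (sub_nonneg.2 e2)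
  have k5 := mul_nonneg hw2 (sub_nonneg.2 hH1)
  have k1 := mul_nonneg (sub_nonneg.2 hw12) (sub_nonneg.2 e1)
  have kA := mul_nonneg (sub_nonneg.2 h1) (sub_nonneg.2 A)
  have kB := mul_nonneg (sub_nonneg.2 h0) (sub_nonneg.2 B)
  nlinarith [k0, k1, k2, k3, k4, k5, kA, kB]

theorem p3 (w0 w1 w2 w3 w4 u0 u1 u2 u3 H0 H1 H2 T : ℝ) (hw0 : 0 ≤ w0) (hw3 : 0 ≤ w3)
    (hw23 : w3 ≤ w2) (hw12 : w2 ≤ w1) (e0 : 54 / 217 + 139 / 2604 * H0 ≤ u0)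
    (e1 : 108 / 217 ≤ u1 + 13 / 217 * H0)
    (hH1 : H1 ≤ H0 + u1) (e2 : 18 / 17 ≤ u2 + 5 / 17 * H1) (hH2 : H2 ≤ H1 + u2)
    (e3 : 3 - H2 ≤ u3)
    (h0 : 8 / 9 ≤ H0) (h1 : H0 ≤ 81 / 64)
    (A : T ≤ w0 * (8 / 27) + w1 * (4 / 9) + w2 * (2 / 3) + w3 + w4)
    (B : T ≤ w0 * (81 / 256) + w1 * (27 / 64) + w2 * (9 / 16) + w3 * (3 / 4) + w4) :
    T ≤ w0 * u0 + w1 * u1 + w2 * u2 + w3 * u3 + w4 := by
  have hw2 : 0 ≤ w2 := hw3.trans hw23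
  have k0 := mul_nonneg hw0 (sub_nonneg.2 e0)
  have k3 := mul_nonneg hw3 (sub_nonneg.2 e3)
  have k4 := mul_nonneg hw3 (sub_nonneg.2 hH2)
  have k2 := mul_nonneg (sub_nonneg.2 hw23) (sub_nonneg.2 e2)
  have hc : 0 ≤ 5 / 17 * w2 + 12 / 17 * w3 := by positivity
  have k5 := mul_nonneg hc (sub_nonneg.2 hH1)
  have hd : 0 ≤ w1 - (5 / 17 * w2 + 12 / 17 * w3) := by linarith
  have k1 := mul_nonneg hd (sub_nonneg.2 e1)
  have kA := mul_nonneg (sub_nonneg.2 h1) (sub_nonneg.2 A)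
  have kB := mul_nonneg (sub_nonneg.2 h0) (sub_nonneg.2 B)
  nlinarith [k0, k1, k2, k3, k4, k5, kA, kB]

theorem fin4 : S_FIN4 := by
  intro hchj hch0 hsm hph ρ hr1 hr2 u H hS
  have hr0 : 0 < ρ := by linarith
  have hs0 : 0 < 1 - ρ := by linarith
  obtain ⟨c1, c2, c3⟩ := hchj u H hS
  obtain ⟨d1, d2, d3, -⟩ := hch0 4 (Or.inl rfl) u H hS
  obtain ⟨f2, f3⟩ := hph ρ hr1 hr2
  have h0 := hS.h0 0 (by norm_num)
  have h1 := hS.h0 1 (by norm_num)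
  have h2 := hS.h0 2 (by norm_num)
  have h3 := hS.h0 3 (by norm_num)
  have s0 := hS.st 0 (by norm_num)
  have s1 := hS.st 1 (by norm_num)
  have s2 := hS.st 2 (by norm_num)
  have g0 := hS.h1 0 (by norm_num)
  have hu4 : u 4 = 1 := hS.uk
  norm_num at h0 h1 h2 h3 s0 s1 s2 g0
  set T : ℝ := min (1 - ρ ^ 4) ((1 - ρ / 4) ^ 4) with hT
  have T1 : T ≤ 1 - ρ ^ 4 := min_le_left _ _
  have T2 : T ≤ (1 - ρ / 4) ^ 4 := min_le_right _ _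
  have hsum : ∑ j ∈ range (4 + 1), ((4 : ℕ).choose j : ℝ) * (1 - ρ) ^ j * ρ ^ (4 - j) * u j =
      ρ ^ 4 * u 0 + (4 * (1 - ρ) * ρ ^ 3) * u 1 + (6 * (1 - ρ) ^ 2 * ρ ^ 2) * u 2 +
        (4 * (1 - ρ) ^ 3 * ρ) * u 3 + (1 - ρ) ^ 4 := by
    simp only [Finset.sum_range_succ, Finset.sum_range_zero]
    rw [hu4]
    norm_num [Nat.choose]
  have hP2 : Ph 4 2 ρ = ρ ^ 4 / 4 + (4 * (1 - ρ) * ρ ^ 3) / 2 + (6 * (1 - ρ) ^ 2 * ρ ^ 2) +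
        (4 * (1 - ρ) ^ 3 * ρ) + (1 - ρ) ^ 4 := by
    unfold Ph
    simp only [Finset.sum_range_succ, Finset.sum_range_zero]
    norm_num [Nat.choose]
    ring
  have hP3 : Ph 4 3 ρ = ρ ^ 4 * (8 / 27) + (4 * (1 - ρ) * ρ ^ 3) * (4 / 9) +
        (6 * (1 - ρ) ^ 2 * ρ ^ 2) * (2 / 3) + (4 * (1 - ρ) ^ 3 * ρ) + (1 - ρ) ^ 4 := by
    unfold Ph
    simp only [Finset.sum_range_succ, Finset.sum_range_zero]
    norm_num [Nat.choose]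
    try ring
  have hB4 : (1 - ρ / 4) ^ 4 = ρ ^ 4 * (81 / 256) + (4 * (1 - ρ) * ρ ^ 3) * (27 / 64) +
        (6 * (1 - ρ) ^ 2 * ρ ^ 2) * (9 / 16) + (4 * (1 - ρ) ^ 3 * ρ) * (3 / 4) + (1 - ρ) ^ 4 := by
    ring
  have hA1 : 1 - ρ ^ 4 = (4 * (1 - ρ) * ρ ^ 3) + (6 * (1 - ρ) ^ 2 * ρ ^ 2) +
        (4 * (1 - ρ) ^ 3 * ρ) + (1 - ρ) ^ 4 := by
    ring
  have hw0 : 0 ≤ ρ ^ 4 := by positivity
  have hw3 : 0 ≤ 4 * (1 - ρ) ^ 3 * ρ := by positivity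
  have hw23 : 4 * (1 - ρ) ^ 3 * ρ ≤ 6 * (1 - ρ) ^ 2 * ρ ^ 2 := by
    have : 0 ≤ (2 * (1 - ρ) ^ 2 * ρ) * (3 * ρ - 2 * (1 - ρ)) :=
      mul_nonneg (by positivity) (by linarith)
    nlinarith [this]
  have hw12 : 6 * (1 - ρ) ^ 2 * ρ ^ 2 ≤ 4 * (1 - ρ) * ρ ^ 3 := by
    have : 0 ≤ (2 * (1 - ρ) * ρ ^ 2) * (2 * ρ - 3 * (1 - ρ)) :=
      mul_nonneg (by positivity) (by linarith)
    nlinarith [this]
  rw [hP2] at f2
  rw [hP3] at f3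
  rw [hB4] at T2
  rw [hA1] at T1
  rw [hsum]
  have hTdef : T ≤ _ := f2
  by_cases q1 : H 0 ≤ 1 / 2
  · have e0 := d1 q1
    exact p1 _ _ _ _ _ (u 0) (u 1) (u 2) (u 3) (H 0) (H 1) (H 2) T hw0 hw3 hw23 hw12
      (by linarith only [e0]) (by linarith only [h1, s0]) (by linarith only [s0])
      (by linarith only [h2, s1]) (by linarith only [s1]) (by linarith only [h3, s2])
      h0 q1 T1 f2
  · push Not at q1
    by_cases q2 : H 0 ≤ 8 / 9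
    · have e0 := d2 q1.le q2
      exact p2 _ _ _ _ _ (u 0) (u 1) (u 2) (u 3) (H 0) (H 1) (H 2) T hw0 hw3 hw23 hw12
        (by linarith only [e0]) (by linarith only [c1]) (by linarith only [s0])
        (by linarith only [h2, s1]) (by linarith only [s1]) (by linarith only [h3, s2])
        q1.le q2 f2 f3
    · push Not at q2
      by_cases q3 : H 0 ≤ 81 / 64
      · have e0 := d3 q2.le q3
        exact p3 _ _ _ _ _ (u 0) (u 1) (u 2) (u 3) (H 0) (H 1) (H 2) T hw0 hw3 hw23 hw12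
          (by linarith only [e0]) (by linarith only [c2]) (by linarith only [s0])
          (by linarith only [c3]) (by linarith only [s1]) (by linarith only [h3, s2])
          q2.le q3 f3 T2
      · push Not at q3
        have m1 := hsm 4 (Or.inl rfl) u H hS 1 (by norm_num) (by norm_num)
        have m2 := hsm 4 (Or.inl rfl) u H hS 2 (by norm_num) (by norm_num)
        have m3 := hsm 4 (Or.inl rfl) u H hS 3 (by norm_num) (by norm_num)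
        norm_num at m1 m2 m3
        have hw2 : 0 ≤ 6 * (1 - ρ) ^ 2 * ρ ^ 2 := by positivity
        have hw1 : 0 ≤ 4 * (1 - ρ) * ρ ^ 3 := by positivity
        have m0 : 81 / 256 ≤ u 0 := by linarith only [q3, g0]
        have k0 := mul_le_mul_of_nonneg_left m0 hw0
        have k1 := mul_le_mul_of_nonneg_left m1 hw1
        have k2 := mul_le_mul_of_nonneg_left m2 hw2
        have k3 := mul_le_mul_of_nonneg_left m3 hw3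
        linarith only [k0, k1, k2, k3, T2]

end Pool.Agent.W71.IR

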